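import Mathlib

namespace Pool.Agent.Work.MP_e31007_co

open Classical in
/-- The Randic index: the sum over the edges `uv` of `1 / sqrt (d_u d_v)`. -/
noncomputable def randic {n : ℕ} (G : SimpleGraph (Fin n)) : ℝ :=
  ∑ e ∈ G.edgeFinset,
    Sym2.lift ⟨fun u v => 1 / √((G.degree u : ℝ) * (G.degree v : ℝ)),
      fun u v => by simp only [mul_comm]⟩ e

end Pool.Agent.Work.MP_e31007_co
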