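import Pool.Agent.Work.MP_e31007_co.Defs

namespace Pool.Agent.Work.MP_e31007_co

open Finset

open Classical in
lemma two_mul_sum_edges {n : ℕ} (G : SimpleGraph (Fin n)) (f : Fin n → Fin n → ℝ)
    (hf : ∀ u v, f u v = f v u) :
    2 * ∑ e ∈ G.edgeFinset, Sym2.lift ⟨f, hf⟩ e
      = ∑ u, ∑ v ∈ G.neighborFinset u, f u v := by
  have h1 : ∑ d : G.Dart, f d.fst d.snd
      = ∑ e ∈ G.edgeFinset, ∑ d ∈ univ.filter (fun d : G.Dart => d.edge = e),
          f d.fst d.snd := by
    symm
    apply Finset.sum_fiberwise_of_maps_to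
    intro d _
    simp
  have h2 : ∀ e ∈ G.edgeFinset, ∑ d ∈ univ.filter (fun d : G.Dart => d.edge = e),
      f d.fst d.snd = 2 * Sym2.lift ⟨f, hf⟩ e := by
    intro e he
    have : ∀ d ∈ univ.filter (fun d : G.Dart => d.edge = e),
        f d.fst d.snd = Sym2.lift ⟨f, hf⟩ e := by
      intro d hd
      simp only [mem_filter, mem_univ, true_and] at hd
      rw [← hd]
      rfl
    rw [Finset.sum_congr rfl this, Finset.sum_const,
      G.dart_edge_fiber_card e (by simpa using he)]
    simp
  have h3 : ∑ d : G.Dart, f d.fst d.snd = ∑ u, ∑ v ∈ G.neighborFinset u, f u v := by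
    rw [← Finset.sum_fiberwise_of_maps_to (s := univ) (t := univ)
      (g := fun d : G.Dart => d.fst) (by simp)]
    refine Finset.sum_congr rfl fun u _ => ?_
    symm
    refine Finset.sum_bij (fun v hv => (⟨(u, v), by simpa using hv⟩ : G.Dart)) ?_ ?_ ?_ ?_
    · intro v hv; simp
    · intro v hv w hw h
      have := congrArg (fun d : G.Dart => d.snd) h
      simpa using this
    · intro d hd
      simp only [mem_filter, mem_univ, true_and] at hd
      refine ⟨d.snd, ?_, ?_⟩
      · simp only [SimpleGraph.mem_neighborFinset]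
        rw [← hd]; exact d.adj
      · ext <;> simp [hd]
    · intro v hv; rfl
  rw [← h3, h1, Finset.sum_congr rfl h2, Finset.mul_sum]

open Classical in
lemma two_mul_randic {n : ℕ} (G : SimpleGraph (Fin n)) :
    2 * randic G = ∑ u, ∑ v ∈ G.neighborFinset u,
      1 / √((G.degree u : ℝ) * (G.degree v : ℝ)) := by
  unfold randic
  exact two_mul_sum_edges G _ _

lemma amgm (x y c c' : ℝ) (hx : 0 < x) (hy : 0 < y) (hc : 0 < c) (hc' : 0 < c')
    (h : 1 ≤ c * c') : 1 / √(x * y) ≤ (c / x + c' / y) / 2 := by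
  have hxy : 0 < x * y := mul_pos hx hy
  have hs : 0 < √(x * y) := Real.sqrt_pos.mpr hxy
  have h0 : 0 ≤ (c / x + c' / y) / 2 := by positivity
  have hs2 : √(x * y) ^ 2 = x * y := Real.sq_sqrt hxy.le
  refine (pow_le_pow_iff_left₀ (by positivity) h0 two_ne_zero).mp ?_
  rw [div_pow, hs2, one_pow]
  have e : ((c / x + c' / y) / 2) ^ 2 = (c * c') / (x * y) + ((c / x - c' / y) / 2) ^ 2 := by
    field_simp; ring
  rw [e]
  have : 1 / (x * y) ≤ (c * c') / (x * y) := by gcongr
  nlinarith [sq_nonneg ((c / x - c' / y) / 2)]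

open Classical in
lemma randic_le_weight {n : ℕ} (G : SimpleGraph (Fin n)) (c : Fin n → ℝ) (hc : ∀ v, 0 < c v)
    (hadj : ∀ u v, G.Adj u v → 1 ≤ c u * c v) : 2 * randic G ≤ ∑ v, c v := by
  rw [two_mul_randic]
  have h1 : ∑ u, ∑ v ∈ G.neighborFinset u, 1 / √((G.degree u : ℝ) * (G.degree v : ℝ))
      ≤ ∑ u, ∑ v ∈ G.neighborFinset u, (c u / G.degree u + c v / G.degree v) / 2 := by
    refine Finset.sum_le_sum fun u _ => Finset.sum_le_sum fun v hv => ?_
    have huv : G.Adj u v := by simpa using hv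
    have hu : (0 : ℝ) < G.degree u := by exact_mod_cast huv.degree_pos_left
    have hv' : (0 : ℝ) < G.degree v := by exact_mod_cast huv.symm.degree_pos_left
    exact amgm _ _ _ _ hu hv' (hc u) (hc v) (hadj u v huv)
  refine h1.trans ?_
  have h2 : ∑ u, ∑ v ∈ G.neighborFinset u, c v / G.degree v
      = ∑ u, ∑ _v ∈ G.neighborFinset u, c u / G.degree u := by
    rw [Finset.sum_comm' (t' := univ) (s' := fun v => G.neighborFinset v)]
    intro u v
    simp [G.adj_comm]
  have h3 : ∀ u, ∑ _v ∈ G.neighborFinset u, c u / G.degree u ≤ c u := by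
    intro u
    rw [Finset.sum_const, SimpleGraph.card_neighborFinset_eq_degree, nsmul_eq_mul]
    rcases Nat.eq_zero_or_pos (G.degree u) with h | h
    · simp [h, (hc u).le]
    · have : (G.degree u : ℝ) ≠ 0 := by positivity
      rw [mul_div_cancel₀ _ this]
  have h4 : ∑ u, ∑ v ∈ G.neighborFinset u, (c u / G.degree u + c v / G.degree v) / 2
      = (∑ u, ∑ _v ∈ G.neighborFinset u, c u / G.degree u
        + ∑ u, ∑ v ∈ G.neighborFinset u, c v / G.degree v) / 2 := by
    rw [← Finset.sum_add_distrib, Finset.sum_div]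
    refine Finset.sum_congr rfl fun u _ => ?_
    rw [← Finset.sum_add_distrib, Finset.sum_div]
  rw [h4, h2]
  have := Finset.sum_le_sum (s := univ) fun u _ => h3 u
  linarith

lemma randic_le_half {n : ℕ} (G : SimpleGraph (Fin n)) : 2 * randic G ≤ n := by
  simpa using randic_le_weight G (fun _ => 1) (fun _ => one_pos) (fun _ _ _ => by simp)

lemma randic_le_sqrt {n : ℕ} (G : SimpleGraph (Fin n)) (h2 : n ≤ 2 * G.indepNum)
    (hlt : G.indepNum < n) :
    randic G ≤ √((G.indepNum : ℝ) * (n - G.indepNum)) := by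
  classical
  obtain ⟨S, hS⟩ := G.exists_isNIndepSet_indepNum
  set a : ℕ := G.indepNum with ha
  have ha0 : (0 : ℝ) < a := by exact_mod_cast (by omega : 0 < a)
  have hb0 : (0 : ℝ) < n - a := by
    have : (a : ℝ) < n := by exact_mod_cast hlt
    linarith
  have hba : (n : ℝ) - a ≤ a := by
    have : (n : ℝ) ≤ 2 * a := by exact_mod_cast h2
    linarith
  set r : ℝ := √((a : ℝ) * (n - a)) with hr
  have hr0 : 0 < r := Real.sqrt_pos.mpr (mul_pos ha0 hb0)
  have hr2 : r ^ 2 = a * (n - a) := Real.sq_sqrt (mul_pos ha0 hb0).le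
  have hra : r ≤ a := by nlinarith
  have key := randic_le_weight G (fun v => if v ∈ S then r / a else a / r)
    (fun v => by split_ifs <;> positivity) (fun u v huv => by
      by_cases hu : u ∈ S <;> by_cases hv : v ∈ S
      · exact absurd huv (hS.isIndepSet hu hv huv.ne)
      · simp only [hu, hv, if_true, if_false]; field_simp; rfl
      · simp only [hu, hv, if_true, if_false]; field_simp; rfl
      · simp only [hu, hv, if_false]
        have : 1 ≤ a / r := (one_le_div hr0).mpr hra
        nlinarith)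
  rw [Finset.sum_ite] at key
  simp only [Finset.sum_const, nsmul_eq_mul] at key
  have hc1 : (univ.filter fun v => v ∈ S).card = a := by simp [hS.card_eq]
  have hc2 : ((univ.filter fun v => v ∉ S).card : ℝ) = n - a := by
    have := Finset.card_filter_add_card_filter_not (s := (univ : Finset (Fin n)))
      (fun v => v ∈ S)
    rw [hc1] at this
    simp only [card_univ, Fintype.card_fin] at this
    have h' : (a : ℝ) + ((univ.filter fun v => v ∉ S).card : ℝ) = n := by exact_mod_cast this
    linarith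
  rw [hc1, hc2] at key
  have e1 : (a : ℝ) * (r / a) = r := by field_simp
  have e2 : ((n : ℝ) - a) * (a / r) = r := by field_simp; nlinarith
  linarith

lemma indepNum_lt {n : ℕ} (hn : 2 ≤ n) (G : SimpleGraph (Fin n)) (hG : G.Connected) :
    G.indepNum < n := by
  classical
  obtain ⟨S, hS⟩ := G.exists_isNIndepSet_indepNum
  have : Nontrivial (Fin n) := Fin.nontrivial_iff_two_le.mpr hn
  obtain ⟨u, v, huv⟩ : ∃ u v, G.Adj u v := by
    by_contra h
    push Not at h
    have : G = ⊥ := by ext u v; simp [h]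
    subst this
    exact SimpleGraph.not_connected_bot hG
  rw [← hS.card_eq]
  have hne : S ≠ univ := by
    intro h
    exact hS.isIndepSet (by simp [h]) (by simp [h]) huv.ne huv
  simpa using Finset.card_lt_card (Finset.ssubset_univ_iff.mpr hne)

/-- The complete bipartite graph with parts `{v < a}` and `{a ≤ v}`. -/
def bip (n a : ℕ) : SimpleGraph (Fin n) where
  Adj u v := (u.val < a ∧ a ≤ v.val) ∨ (v.val < a ∧ a ≤ u.val)
  symm := ⟨fun _ _ h => h.symm⟩
  loopless := ⟨fun u h => by omega⟩

lemma card_lt (n a : ℕ) (h : a ≤ n) : (univ.filter fun v : Fin n => v.val < a).card = a := by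
  rw [Fin.card_filter_val_lt]; omega

lemma card_ge (n a : ℕ) (h : a ≤ n) :
    (univ.filter fun v : Fin n => a ≤ v.val).card = n - a := by
  have := Finset.card_filter_add_card_filter_not (s := (univ : Finset (Fin n)))
    (fun v => v.val < a)
  rw [card_lt n a h] at this
  simp only [not_lt, card_univ, Fintype.card_fin] at this
  omega

lemma bip_connected (n a : ℕ) (h0 : 0 < a) (h : a < n) : (bip n a).Connected := by
  have hn : 0 < n := by omega
  have : Nonempty (Fin n) := ⟨⟨0, hn⟩⟩
  have key : ∀ v : Fin n, (bip n a).Reachable ⟨0, hn⟩ v := by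
    intro v
    have h1 : (bip n a).Adj ⟨0, hn⟩ ⟨a, h⟩ := Or.inl ⟨h0, le_rfl⟩
    by_cases hv : v.val < a
    · exact h1.reachable.trans (show (bip n a).Adj ⟨a, h⟩ v from Or.inr ⟨hv, le_rfl⟩).reachable
    · exact (show (bip n a).Adj ⟨0, hn⟩ v from Or.inl ⟨h0, by omega⟩).reachable
  exact ⟨fun u v => (key u).symm.trans (key v)⟩

open Classical in
lemma bip_degree (n a : ℕ) (h : a ≤ n) (u : Fin n) :
    (bip n a).degree u = if u.val < a then n - a else a := by
  rw [← SimpleGraph.card_neighborFinset_eq_degree]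
  split_ifs with hu
  · rw [← card_ge n a h]
    congr 1
    ext v
    simp only [SimpleGraph.mem_neighborFinset, bip, mem_filter, mem_univ, true_and]
    omega
  · conv_rhs => rw [← card_lt n a h]
    congr 1
    ext v
    simp only [SimpleGraph.mem_neighborFinset, bip, mem_filter, mem_univ, true_and]
    omega

lemma bip_randic (n a : ℕ) (h0 : 0 < a) (h : a < n) :
    randic (bip n a) = √((a : ℝ) * (n - a)) := by
  classical
  have ha0 : (0 : ℝ) < a := by exact_mod_cast h0
  have hb0 : (0 : ℝ) < n - a := by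
    have : (a : ℝ) < n := by exact_mod_cast h
    linarith
  set r : ℝ := √((a : ℝ) * (n - a)) with hr
  have hr0 : 0 < r := Real.sqrt_pos.mpr (mul_pos ha0 hb0)
  have hr2 : r ^ 2 = a * (n - a) := Real.sq_sqrt (mul_pos ha0 hb0).le
  have h2 := two_mul_randic (bip n a)
  have hcast : ((n - a : ℕ) : ℝ) = n - a := by push_cast [Nat.cast_sub h.le]; ring
  have h3 : ∀ u : Fin n, ∑ v ∈ (bip n a).neighborFinset u,
      1 / √(((bip n a).degree u : ℝ) * ((bip n a).degree v : ℝ))
      = if u.val < a then (n - a) / r else a / r := by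
    intro u
    have : ∀ v ∈ (bip n a).neighborFinset u,
        1 / √(((bip n a).degree u : ℝ) * ((bip n a).degree v : ℝ)) = 1 / r := by
      intro v hv
      have hv' : (bip n a).Adj u v := by simpa using hv
      rw [bip_degree n a h.le, bip_degree n a h.le]
      rcases hv' with ⟨h1, h2⟩ | ⟨h1, h2⟩
      · rw [if_pos h1, if_neg (by omega), hcast, mul_comm]
      · rw [if_neg (by omega), if_pos h1, hcast]
    rw [Finset.sum_congr rfl this, Finset.sum_const, SimpleGraph.card_neighborFinset_eq_degree,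
      bip_degree n a h.le]
    split_ifs
    · rw [nsmul_eq_mul, hcast]; ring
    · rw [nsmul_eq_mul]; ring
  have h4 : 2 * randic (bip n a) = ∑ u : Fin n, if u.val < a then ((n : ℝ) - a) / r else a / r := by
    rw [h2]
    refine Finset.sum_congr rfl fun u _ => ?_
    convert h3 u
  rw [Finset.sum_ite] at h4
  simp only [Finset.sum_const, nsmul_eq_mul, not_lt] at h4
  rw [card_lt n a h.le, card_ge n a h.le, hcast] at h4
  have e1 : (a : ℝ) * ((n - a) / r) = r := by field_simp; nlinarith
  have e2 : ((n : ℝ) - a) * (a / r) = r := by field_simp; nlinarith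
  linarith

lemma bip_indepNum (n a : ℕ) (h : a ≤ n) : a ≤ (bip n a).indepNum := by
  classical
  have : (bip n a).IsIndepSet ((univ.filter fun v : Fin n => v.val < a : Finset (Fin n)) : Set _) := by
    intro u hu v hv _ huv
    simp only [coe_filter, mem_univ, true_and, Set.mem_ofPred_eq] at hu hv
    rcases huv with h | h <;> omega
  simpa [card_lt n a h] using this.card_le_indepNum

lemma le_bound {n : ℕ} (a : Fin n) :
    (a : ℝ) + √((a : ℝ) * (n - a)) ≤ ⨆ a : Fin n, ((a : ℝ) + √((a : ℝ) * (n - a))) :=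
  le_ciSup (f := fun a : Fin n => ((a : ℝ) + √((a : ℝ) * (n - a)))) (Set.finite_range _).bddAbove a

lemma star_le_bound {n : ℕ} (hn : 1 ≤ n) :
    (n : ℝ) - 1 + √((n : ℝ) - 1) ≤ ⨆ a : Fin n, ((a : ℝ) + √((a : ℝ) * (n - a))) := by
  have := le_bound (n := n) ⟨n - 1, by omega⟩
  simp only [Nat.cast_sub hn, Nat.cast_one, sub_sub_cancel, mul_one] at this
  exact this

theorem upper {n : ℕ} (hn : 3 ≤ n) (G : SimpleGraph (Fin n)) (hG : G.Connected) :
    randic G + G.indepNum ≤ ⨆ a : Fin n, ((a : ℝ) + √((a : ℝ) * (n - a))) := by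
  have hlt := indepNum_lt (by omega) G hG
  by_cases h2 : n ≤ 2 * G.indepNum
  · have := le_bound (n := n) ⟨G.indepNum, hlt⟩
    have h3 := randic_le_sqrt G h2 hlt
    simp only at this
    linarith
  · have h3 := randic_le_half G
    have h4 : (2 * G.indepNum : ℝ) ≤ n := by exact_mod_cast (by omega : 2 * G.indepNum ≤ n)
    have h5 := star_le_bound (n := n) (by omega)
    have h6 : (1 : ℝ) ≤ √((n : ℝ) - 1) := by
      rw [Real.one_le_sqrt]
      have : (3 : ℝ) ≤ n := by exact_mod_cast hn
      linarith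
    linarith

theorem attained {n : ℕ} (hn : 3 ≤ n) : ∃ G : SimpleGraph (Fin n), G.Connected ∧
    (⨆ a : Fin n, ((a : ℝ) + √((a : ℝ) * (n - a)))) = randic G + G.indepNum := by
  have : Nonempty (Fin n) := ⟨⟨0, by omega⟩⟩
  obtain ⟨a, ha⟩ := exists_eq_ciSup_of_finite
    (f := fun a : Fin n => ((a : ℝ) + √((a : ℝ) * (n - a))))
  have h5 := star_le_bound (n := n) (by omega)
  have h3 : (3 : ℝ) ≤ n := by exact_mod_cast hn
  have ha0 : 0 < a.val := by
    by_contra h0
    have h0' : a.val = 0 := by omega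
    rw [← ha] at h5
    simp only [h0', Nat.cast_zero, zero_mul, Real.sqrt_zero, add_zero] at h5
    have := Real.sqrt_nonneg ((n : ℝ) - 1)
    linarith
  refine ⟨bip n a, bip_connected n a ha0 a.2, le_antisymm ?_ (upper hn _ (bip_connected n a ha0 a.2))⟩
  rw [← ha, bip_randic n a ha0 a.2]
  have : (a.val : ℝ) ≤ (bip n a).indepNum := by exact_mod_cast bip_indepNum n a a.2.le
  linarith

theorem threshold {n : ℕ} (hn : 3 ≤ n) :
    (⨆ a : Fin n, ((a : ℝ) + √((a : ℝ) * (n - a)))) ≤ n - 1 + √((n : ℝ) - 1) ↔ n ≤ 10 := by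
  have h3 : (3 : ℝ) ≤ n := by exact_mod_cast hn
  set r : ℝ := √((n : ℝ) - 1) with hr
  have hr0 : 0 ≤ r := Real.sqrt_nonneg _
  have hr2 : r ^ 2 = n - 1 := Real.sq_sqrt (by linarith)
  constructor
  · intro h
    by_contra h11
    have h11' : (11 : ℝ) ≤ n := by exact_mod_cast (by omega : 11 ≤ n)
    have := le_bound (n := n) ⟨n - 2, by omega⟩
    simp only [Nat.cast_sub (by omega : 2 ≤ n), Nat.cast_ofNat, sub_sub_cancel] at this
    have h1 : √(((n : ℝ) - 2) * 2) ≤ 1 + r := by linarith
    have h2 : ((n : ℝ) - 2) * 2 ≤ (1 + r) ^ 2 := by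
      have := Real.sqrt_le_left (x := ((n : ℝ) - 2) * 2) (y := 1 + r) (by linarith)
      exact this.mp h1
    nlinarith
  · intro h10
    have : Nonempty (Fin n) := ⟨⟨0, by omega⟩⟩
    have h10' : (n : ℝ) ≤ 10 := by exact_mod_cast h10
    refine ciSup_le fun a => ?_
    have ha : (a.val : ℝ) + 1 ≤ n := by exact_mod_cast a.2
    have ha0 : (0 : ℝ) ≤ a.val := by positivity
    have hk : √((a : ℝ) * (n - a)) ≤ n - a - 1 + r := by
      rw [Real.sqrt_le_left (by linarith)]
      rcases Nat.lt_or_ge (a.val + 1) n with h | h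
      · have h' : (a.val : ℝ) + 2 ≤ n := by exact_mod_cast h
        have h4 : (n : ℝ) - 4 ≤ 2 * r := by nlinarith
        nlinarith
      · have h' : (n : ℝ) = a.val + 1 := by exact_mod_cast (by omega : n = a.val + 1)
        nlinarith
    linarith

end Pool.Agent.Work.MP_e31007_co
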